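import Mathlib

namespace Pool.Agent.Results.MP_752880_co.ThreeBlocks

open Finset Equiv

variable {n : ℕ}

/-- The cyclic successor of `x` in its block: the next larger element of the block of `x` or,
if `x` is the largest element of its block, the smallest element of that block. -/
def nextFun (α : Finpartition (univ : Finset (Fin n))) (x : Fin n) : Fin n :=
  if h : ((α.part x).filter (fun y => x < y)).Nonempty then
    ((α.part x).filter (fun y => x < y)).min' h
  else (α.part x).min' (α.part_nonempty.mpr (mem_univ x))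

theorem mem_part_self' (α : Finpartition (univ : Finset (Fin n))) (x : Fin n) :
    x ∈ α.part x := α.mem_part_self.mpr (mem_univ x)

theorem mem_part_iff (α : Finpartition (univ : Finset (Fin n))) (x y : Fin n) :
    y ∈ α.part x ↔ α.part y = α.part x := by
  rw [α.mem_part_iff_part_eq_part (mem_univ y) (mem_univ x)]

theorem nextFun_mem (α : Finpartition (univ : Finset (Fin n))) (x : Fin n) :
    nextFun α x ∈ α.part x := by
  unfold nextFun
  split_ifs with h
  · exact (mem_filter.mp (min'_mem _ h)).1
  · exact min'_mem _ _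

theorem part_nextFun (α : Finpartition (univ : Finset (Fin n))) (x : Fin n) :
    α.part (nextFun α x) = α.part x := (mem_part_iff α x _).mp (nextFun_mem α x)

theorem nextFun_spec1 (α : Finpartition (univ : Finset (Fin n))) (x y : Fin n)
    (hy : y ∈ α.part x) (hxy : x < y) : x < nextFun α x ∧ nextFun α x ≤ y := by
  have hm : y ∈ (α.part x).filter (fun y => x < y) := mem_filter.mpr ⟨hy, hxy⟩
  have h : ((α.part x).filter (fun y => x < y)).Nonempty := ⟨y, hm⟩
  unfold nextFun
  rw [dif_pos h]
  exact ⟨(mem_filter.mp (min'_mem _ h)).2, min'_le _ _ hm⟩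

theorem nextFun_spec2 (α : Finpartition (univ : Finset (Fin n))) (x : Fin n)
    (hx : ∀ y ∈ α.part x, y ≤ x) (y : Fin n) (hy : y ∈ α.part x) : nextFun α x ≤ y := by
  have h : ¬ ((α.part x).filter (fun y => x < y)).Nonempty := by
    rintro ⟨z, hz⟩
    rw [mem_filter] at hz
    exact absurd (hx z hz.1) (not_le.mpr hz.2)
  unfold nextFun
  rw [dif_neg h]
  exact min'_le _ _ hy

theorem nextFun_le_iff (α : Finpartition (univ : Finset (Fin n))) (x : Fin n) :
    nextFun α x ≤ x ↔ ∀ y ∈ α.part x, y ≤ x := by
  constructor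
  · intro h y hy
    by_contra hlt
    rw [not_le] at hlt
    exact absurd (nextFun_spec1 α x y hy hlt).1 (not_lt.mpr h)
  · intro h
    exact nextFun_spec2 α x h x (mem_part_self' α x)

theorem nextFun_ne (α : Finpartition (univ : Finset (Fin n))) (x y : Fin n) (hxy : x < y) :
    nextFun α x ≠ nextFun α y := by
  intro h
  have hp : α.part x = α.part y := by
    rw [← part_nextFun α x, h, part_nextFun]
  have h1 := nextFun_spec1 α x y ((mem_part_iff α x y).mpr hp.symm) hxy
  rw [h] at h1
  have h2 := (nextFun_le_iff α y).mp h1.2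
  have h3 := nextFun_spec2 α y h2 x ((mem_part_iff α y x).mpr hp)
  exact absurd h1.1 (not_lt.mpr h3)

theorem nextFun_injective (α : Finpartition (univ : Finset (Fin n))) :
    Function.Injective (nextFun α) := by
  intro x y h
  rcases lt_trichotomy x y with h1 | h1 | h1
  · exact absurd h (nextFun_ne α x y h1)
  · exact h1
  · exact absurd h.symm (nextFun_ne α y x h1)

/-- The permutation whose cycles are the blocks of `α`, each traversed in increasing order. -/
noncomputable def tau (α : Finpartition (univ : Finset (Fin n))) : Perm (Fin n) :=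
  Equiv.ofBijective (nextFun α) (Finite.injective_iff_bijective.mp (nextFun_injective α))

/-- The number of cycles of a permutation, fixed points included. -/
def cyc (π : Perm (Fin n)) : ℕ := Multiset.card π.partition.parts

theorem cyc_eq (π : Perm (Fin n)) :
    cyc π = #π.cycleFactorsFinset + (n - #π.support) := by
  unfold cyc
  rw [Perm.parts_partition, Multiset.card_add, Multiset.card_replicate, Fintype.card_fin,
    Perm.cycleType_def, Multiset.card_map]
  rfl

theorem support_nonempty_of_mem {π c : Perm (Fin n)} (hc : c ∈ π.cycleFactorsFinset) :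
    c.support.Nonempty := by
  rw [Perm.mem_cycleFactorsFinset_iff] at hc
  rw [Finset.nonempty_iff_ne_empty, ne_eq, Perm.support_eq_empty_iff]
  exact hc.1.ne_one

theorem apply_mem_support {π c : Perm (Fin n)} (hc : c ∈ π.cycleFactorsFinset) {x : Fin n}
    (hx : x ∈ c.support) : π x ∈ c.support ∧ π x ≠ x := by
  rw [Perm.mem_cycleFactorsFinset_iff] at hc
  rw [← hc.2 x hx]
  refine ⟨Perm.apply_mem_support.mpr hx, ?_⟩
  exact Perm.mem_support.mp hx

theorem card_cycleFactors_le (π : Perm (Fin n)) :
    #π.cycleFactorsFinset ≤ #(univ.filter fun x => x < π x) := by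
  classical
  refine le_trans (Finset.card_le_card (t := (univ.filter fun x => x < π x).image
    (fun x => π.cycleOf x)) ?_) Finset.card_image_le
  intro c hc
  have hne := support_nonempty_of_mem hc
  have hm := min'_mem _ hne
  have h1 := apply_mem_support hc hm
  rw [mem_image]
  refine ⟨c.support.min' hne, ?_, (Perm.cycle_is_cycleOf hm hc).symm⟩
  rw [mem_filter]
  refine ⟨mem_univ _, lt_of_le_of_ne (min'_le _ _ h1.1) h1.2.symm⟩

theorem card_cycleFactors_eq (π : Perm (Fin n))
    (hD : ∀ x y, π x < x → π y < y → π.SameCycle x y → x = y) :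
    #π.cycleFactorsFinset = #(univ.filter fun x => π x < x) := by
  classical
  have himg : (univ.filter fun x => π x < x).image (fun x => π.cycleOf x)
      = π.cycleFactorsFinset := by
    ext c
    rw [mem_image]
    constructor
    · rintro ⟨x, hx, rfl⟩
      rw [mem_filter] at hx
      rw [Perm.cycleOf_mem_cycleFactorsFinset_iff, Perm.mem_support]
      exact ne_of_lt hx.2
    · intro hc
      have hne := support_nonempty_of_mem hc
      have hm := max'_mem _ hne
      have h1 := apply_mem_support hc hm
      refine ⟨c.support.max' hne, ?_, (Perm.cycle_is_cycleOf hm hc).symm⟩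
      rw [mem_filter]
      exact ⟨mem_univ _, lt_of_le_of_ne (le_max' _ _ h1.1) h1.2⟩
  rw [← himg, Finset.card_image_of_injOn]
  intro x hx y hy hxy
  rw [mem_coe, mem_filter] at hx hy
  simp only at hxy
  apply hD x y hx.2 hy.2
  have hys : y ∈ (π.cycleOf y).support := by
    rw [Perm.mem_support_cycleOf_iff]
    exact ⟨Perm.SameCycle.refl _ _, Perm.mem_support.mpr (ne_of_lt hy.2)⟩
  rw [← hxy, Perm.mem_support_cycleOf_iff] at hys
  exact hys.1

theorem tau_apply (α : Finpartition (univ : Finset (Fin n))) (x : Fin n) :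
    tau α x = nextFun α x := rfl

theorem part_tau (α : Finpartition (univ : Finset (Fin n))) (x : Fin n) :
    α.part (tau α x) = α.part x := part_nextFun α x

theorem part_tau_symm (α : Finpartition (univ : Finset (Fin n))) (x : Fin n) :
    α.part ((tau α)⁻¹ x) = α.part x := by
  have h := part_tau α ((tau α)⁻¹ x)
  rw [← h]
  simp

theorem part_eq_of_sameCycle (α : Finpartition (univ : Finset (Fin n))) (x y : Fin n)
    (h : (tau α).SameCycle x y) : α.part y = α.part x := by
  obtain ⟨k, hk⟩ := h
  have key : ∀ (k : ℤ) (x : Fin n), α.part (((tau α) ^ k) x) = α.part x := by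
    intro k
    induction k using Int.induction_on with
    | zero => intro x; simp
    | succ k ih => intro x; rw [zpow_add_one, Perm.mul_apply, ih, part_tau]
    | pred k ih => intro x; rw [zpow_sub_one, Perm.mul_apply, ih, part_tau_symm]
  rw [← hk, key]

/-- `x` is the largest element of its block iff `τ x ≤ x`. -/
theorem card_parts_eq (α : Finpartition (univ : Finset (Fin n))) :
    #α.parts = #(univ.filter fun x => tau α x ≤ x) := by
  symm
  apply Finset.card_bij (fun x _ => α.part x)
  · intro x _
    exact α.part_mem.mpr (mem_univ x)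
  · intro x hx y hy hxy
    rw [mem_filter, tau_apply, nextFun_le_iff] at hx hy
    apply le_antisymm
    · exact hy.2 x ((mem_part_iff α y x).mpr hxy)
    · exact hx.2 y ((mem_part_iff α x y).mpr hxy.symm)
  · intro B hB
    have hne := α.nonempty_of_mem_parts hB
    refine ⟨B.max' hne, ?_, α.part_eq_of_mem hB (max'_mem _ _)⟩
    rw [mem_filter, tau_apply, nextFun_le_iff, α.part_eq_of_mem hB (max'_mem _ _)]
    exact ⟨mem_univ _, fun y hy => le_max' _ _ hy⟩

theorem cyc_tau (α : Finpartition (univ : Finset (Fin n))) : cyc (tau α) = #α.parts := by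
  classical
  rw [cyc_eq, card_parts_eq, card_cycleFactors_eq]
  · have h1 : (univ.filter fun x => tau α x ≤ x)
        = (univ.filter fun x => tau α x < x) ∪ (tau α).supportᶜ := by
      ext x
      simp only [mem_filter, mem_univ, true_and, mem_union, mem_compl, Perm.mem_support,
        not_not]
      exact le_iff_lt_or_eq
    rw [h1, card_union_of_disjoint, card_compl, Fintype.card_fin]
    rw [Finset.disjoint_left]
    intro x hx
    rw [mem_filter] at hx
    rw [mem_compl, not_not, Perm.mem_support]
    exact ne_of_lt hx.2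
  · intro x y hx hy h
    have hp := part_eq_of_sameCycle α x y h
    have hx' := (nextFun_le_iff α x).mp (le_of_lt hx)
    have hy' := (nextFun_le_iff α y).mp (le_of_lt hy)
    apply le_antisymm
    · exact hy' x ((mem_part_iff α y x).mpr hp.symm)
    · exact hx' y ((mem_part_iff α x y).mpr hp)

/-- sign from the number of cycles -/
theorem sign_eq (π : Perm (Fin n)) : ((Perm.sign π : ℤˣ) : ℤ) = (-1) ^ (n + cyc π) := by
  rw [cyc_eq, Perm.sign_of_cycleType, Perm.sum_cycleType, Perm.cycleType_def,
    Multiset.card_map]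
  have hle : #π.support ≤ n := by
    have := Finset.card_le_univ π.support
    rwa [Fintype.card_fin] at this
  have h2 : n + (#π.cycleFactorsFinset + (n - #π.support))
      = #π.support + #π.cycleFactorsFinset + 2 * (n - #π.support) := by omega
  rw [h2, pow_add _ (#π.support + #π.cycleFactorsFinset), pow_mul]
  simp

theorem cyc_finRotate (hn : 1 ≤ n) : cyc (finRotate n) = 1 := by
  rcases Nat.lt_or_ge n 2 with h | h
  · have : n = 1 := by omega
    subst this
    have h1 : finRotate 1 = 1 := finRotate_one
    rw [cyc_eq, h1, Perm.cycleFactorsFinset_one]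
    simp
  · rw [cyc_eq, support_finRotate_of_le h]
    have h1 : #(finRotate n).cycleFactorsFinset = Multiset.card (finRotate n).cycleType := by
      rw [Perm.cycleType_def, Multiset.card_map]; rfl
    rw [h1, cycleType_finRotate_of_le h]
    simp

/-- The face permutation `τ⁻¹σ`. -/
noncomputable def face (α : Finpartition (univ : Finset (Fin n))) : Perm (Fin n) :=
  (tau α)⁻¹ * finRotate n


theorem rot_val (i : Fin n) :
    ((finRotate n i : Fin n) : ℕ) = if (i : ℕ) + 1 = n then 0 else (i : ℕ) + 1 := by
  cases n with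
  | zero => exact i.elim0
  | succ N =>
    rw [coe_finRotate]
    have h1 : i = Fin.last N ↔ (i : ℕ) + 1 = N + 1 := by
      rw [Fin.ext_iff, Fin.val_last]; omega
    simp only [h1]

theorem tau_face (α : Finpartition (univ : Finset (Fin n))) (i : Fin n) :
    tau α (face α i) = finRotate n i := by
  unfold face
  simp

theorem face_eq_self_iff (α : Finpartition (univ : Finset (Fin n))) (i : Fin n) :
    face α i = i ↔ α.part (finRotate n i) = α.part i := by
  constructor
  · intro h
    have h1 := tau_face α i
    rw [h] at h1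
    rw [← h1, part_tau]
  · intro h
    apply (tau α).injective
    rw [tau_face, tau_apply]
    have hmem : finRotate n i ∈ α.part i := (mem_part_iff α i _).mpr h
    have hv := rot_val i
    apply Fin.ext
    by_cases hi : (i : ℕ) + 1 = n
    · rw [if_pos hi] at hv
      have h2 : ∀ y ∈ α.part i, y ≤ i := by
        intro y _
        have := y.isLt
        rw [Fin.le_def]; omega
      have h3 := nextFun_spec2 α i h2 _ hmem
      rw [Fin.le_def] at h3
      omega
    · rw [if_neg hi] at hv
      have h3 := nextFun_spec1 α i (finRotate n i) hmem (by rw [Fin.lt_def]; omega)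
      rw [Fin.lt_def, Fin.le_def] at h3
      omega

theorem card_exc_le (α : Finpartition (univ : Finset (Fin n))) (hn : 1 ≤ n) :
    #(univ.filter fun i => i < face α i) ≤ #α.parts - 1 := by
  classical
  have key : ∀ i, i < face α i → (((finRotate n i : Fin n) : ℕ) = i + 1 ∧
      ∀ y ∈ α.part (finRotate n i), finRotate n i ≤ y) := by
    intro i hi
    have h1 := tau_face α i
    have hv := rot_val i
    have h2 := (face α i).isLt
    rw [Fin.lt_def] at hi
    rw [if_neg (by omega)] at hv
    refine ⟨hv, ?_⟩
    have h3 : nextFun α (face α i) ≤ face α i := by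
      rw [← tau_apply, h1, Fin.le_def]; omega
    have h4 := nextFun_spec2 α _ ((nextFun_le_iff α _).mp h3)
    rw [← tau_apply, h1] at h4
    intro y hy
    apply h4
    rw [mem_part_iff] at hy ⊢
    rw [hy, ← h1, part_tau]
  have h0 : α.part ⟨0, hn⟩ ∈ α.parts := α.part_mem.mpr (mem_univ _)
  rw [← Finset.card_erase_of_mem h0]
  apply Finset.card_le_card_of_injOn (fun i => α.part (finRotate n i))
  · intro i hi
    rw [mem_coe, mem_filter] at hi
    have hk := key i hi.2
    rw [mem_coe, mem_erase]
    refine ⟨?_, α.part_mem.mpr (mem_univ _)⟩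
    intro h
    have h5 : (⟨0, hn⟩ : Fin n) ∈ α.part (finRotate n i) := (mem_part_iff α _ _).mpr h.symm
    have h6 := hk.2 _ h5
    rw [Fin.le_def] at h6
    simp only at h6
    omega
  · intro i hi j hj hij
    rw [mem_coe, mem_filter] at hi hj
    simp only at hij
    apply (finRotate n).injective
    apply le_antisymm
    · exact (key i hi.2).2 _ ((mem_part_iff α _ _).mpr hij.symm)
    · exact (key j hj.2).2 _ ((mem_part_iff α _ _).mpr hij)

/-- The number of cyclically consecutive pairs lying in different blocks. -/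
def bnd (α : Finpartition (univ : Finset (Fin n))) : ℕ :=
  #(univ.filter fun i => α.part (finRotate n i) ≠ α.part i)

theorem support_face (α : Finpartition (univ : Finset (Fin n))) :
    #(face α).support = bnd α := by
  unfold bnd
  congr 1
  ext i
  rw [Perm.mem_support, mem_filter, ne_eq, face_eq_self_iff]
  simp

theorem bnd_le (α : Finpartition (univ : Finset (Fin n))) : bnd α ≤ n := by
  rw [← support_face]
  have := Finset.card_le_univ (face α).support
  rwa [Fintype.card_fin] at this

theorem bnd_pos (α : Finpartition (univ : Finset (Fin n))) (h3 : #α.parts = 3) :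
    0 < bnd α := by
  rcases Nat.eq_zero_or_pos n with h0 | hn
  · subst h0
    exfalso
    have : α.parts.Nonempty := by rw [← card_pos]; omega
    obtain ⟨B, hB⟩ := this
    obtain ⟨x, _⟩ := α.nonempty_of_mem_parts hB
    exact x.elim0
  · rw [Nat.pos_iff_ne_zero]
    intro hb
    rw [← support_face, card_eq_zero, Perm.support_eq_empty_iff] at hb
    have h1 : tau α = finRotate n := by
      ext i
      have := tau_face α i
      rw [hb] at this
      rw [← this]
      rfl
    have h2 := cyc_tau α
    rw [h1, cyc_finRotate hn] at h2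
    omega

theorem cycleFactors_face (α : Finpartition (univ : Finset (Fin n))) (h3 : #α.parts = 3) :
    #(face α).cycleFactorsFinset = if Even (bnd α) then 2 else 1 := by
  have hb := bnd_pos α h3
  have hbn := bnd_le α
  have hn : 1 ≤ n := by omega
  have hle : #(face α).cycleFactorsFinset ≤ 2 := by
    have h1 := card_cycleFactors_le (face α)
    have h2 := card_exc_le α hn
    omega
  have hpos : 0 < #(face α).cycleFactorsFinset := by
    rw [Nat.pos_iff_ne_zero, ne_eq, card_eq_zero, Perm.cycleFactorsFinset_eq_empty_iff]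
    intro h1
    have h2 := support_face α
    rw [h1] at h2
    simp at h2
    omega
  have hsign : ((Perm.sign (face α) : ℤˣ) : ℤ) = 1 := by
    unfold face
    rw [Perm.sign_mul, Perm.sign_inv, Units.val_mul, sign_eq, sign_eq, cyc_tau,
      cyc_finRotate hn, h3, ← pow_add]
    apply Even.neg_one_pow
    exact ⟨n + 2, by ring⟩
  have h4 := sign_eq (face α)
  rw [hsign, cyc_eq, support_face] at h4
  have h5 : Even (n + (#(face α).cycleFactorsFinset + (n - bnd α))) := by
    by_contra hodd
    rw [Nat.not_even_iff_odd] at hodd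
    rw [Odd.neg_one_pow hodd] at h4
    norm_num at h4
  have h6 : Even (#(face α).cycleFactorsFinset + bnd α) := by
    rw [Nat.even_iff] at h5 ⊢
    omega
  split_ifs with he
  · rw [Nat.even_iff] at h6 he
    omega
  · rw [Nat.even_iff] at h6 he
    omega

/-- `α` has genus `g`: `c(τ) + c(τ⁻¹σ) + c(σ) = n + 2 - 2g`. -/
def HasGenus (α : Finpartition (univ : Finset (Fin n))) (g : ℕ) : Prop :=
  cyc (tau α) + cyc ((tau α)⁻¹ * finRotate n) + cyc (finRotate n) + 2 * g = n + 2

theorem hasGenus_iff (α : Finpartition (univ : Finset (Fin n))) (h3 : #α.parts = 3) (g : ℕ) :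
    HasGenus α g ↔ (bnd α = 2 * g + 3 ∨ bnd α = 2 * g + 4) := by
  have hb := bnd_pos α h3
  have hbn := bnd_le α
  have h := cycleFactors_face α h3
  have hf : cyc ((tau α)⁻¹ * finRotate n) = #(face α).cycleFactorsFinset + (n - bnd α) := by
    have := cyc_eq (face α)
    rwa [support_face] at this
  unfold HasGenus
  rw [hf, h, cyc_tau, h3, cyc_finRotate (by omega)]
  split_ifs with he
  · rw [Nat.even_iff] at he
    omega
  · rw [Nat.even_iff] at he
    omega

open Classical in
/-- `S_{n,k}^{(g)}`: the number of partitions of `[n]` into exactly `k` blocks of genus `g`. -/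
noncomputable def S (n k g : ℕ) : ℕ :=
  #(univ.filter fun α : Finpartition (univ : Finset (Fin n)) => #α.parts = k ∧ HasGenus α g)

/-- three blocks, `m` boundaries -/
noncomputable def T (n m : ℕ) : ℕ :=
  #(univ.filter fun α : Finpartition (univ : Finset (Fin n)) => #α.parts = 3 ∧ bnd α = m)

theorem S_eq (n g : ℕ) : S n 3 g = T n (2 * g + 3) + T n (2 * g + 4) := by
  classical
  unfold S T
  rw [← card_union_of_disjoint]
  · congr 1
    ext α
    simp only [mem_filter, mem_univ, true_and, mem_union]
    constructor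
    · rintro ⟨h3, hg⟩
      rcases (hasGenus_iff α h3 g).mp hg with h | h
      · exact Or.inl ⟨h3, h⟩
      · exact Or.inr ⟨h3, h⟩
    · rintro (⟨h3, h⟩ | ⟨h3, h⟩)
      · exact ⟨h3, (hasGenus_iff α h3 g).mpr (Or.inl h)⟩
      · exact ⟨h3, (hasGenus_iff α h3 g).mpr (Or.inr h)⟩
  · rw [Finset.disjoint_left]
    intro α h1 h2
    rw [mem_filter] at h1 h2
    omega


/-! ### counting -/

section count

/-- number of cyclically consecutive positions with different letters -/
def bw {G : Type*} [DecidableEq G] (w : Fin n → G) : ℕ :=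
  #(univ.filter fun i => w (finRotate n i) ≠ w i)

/-- The kernel partition of a word. -/
noncomputable def ker {G : Type*} [DecidableEq G] (w : Fin n → G) :
    Finpartition (univ : Finset (Fin n)) :=
  letI : DecidableRel (Setoid.ker w).r := fun a b => decidable_of_iff (w a = w b) Iff.rfl
  Finpartition.ofSetoid (Setoid.ker w)

theorem part_ker_eq {G : Type*} [DecidableEq G] (w : Fin n → G) (i j : Fin n) :
    (ker w).part i = (ker w).part j ↔ w i = w j := by
  let _ : DecidableRel (Setoid.ker w).r := fun a b => decidable_of_iff (w a = w b) Iff.rfl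
  rw [← mem_part_iff]
  unfold ker
  rw [Finpartition.mem_part_ofSetoid_iff_rel]
  show w j = w i ↔ _
  exact eq_comm

theorem eq_ker_iff {G : Type*} [DecidableEq G] (w : Fin n → G)
    (α : Finpartition (univ : Finset (Fin n))) :
    ker w = α ↔ ∀ i j, α.part i = α.part j ↔ w i = w j := by
  constructor
  · rintro rfl i j
    exact part_ker_eq w i j
  · intro h
    have h1 : ∀ i, (ker w).part i = α.part i := by
      intro i
      ext j
      rw [mem_part_iff, mem_part_iff, part_ker_eq, h]
    apply Finpartition.ext
    ext B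
    constructor
    · intro hB
      obtain ⟨x, hx⟩ := (ker w).nonempty_of_mem_parts hB
      rw [← (ker w).part_eq_of_mem hB hx, h1]
      exact α.part_mem.mpr (mem_univ _)
    · intro hB
      obtain ⟨x, hx⟩ := α.nonempty_of_mem_parts hB
      rw [← α.part_eq_of_mem hB hx, ← h1]
      exact (ker w).part_mem.mpr (mem_univ _)

theorem bnd_ker {G : Type*} [DecidableEq G] (w : Fin n → G) : bnd (ker w) = bw w := by
  unfold bnd bw
  congr 1
  ext i
  rw [mem_filter, mem_filter, ne_eq, ne_eq, part_ker_eq]

theorem card_image_kernel {A B C : Type*} [Fintype A] [DecidableEq B] [DecidableEq C]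
    (g : A → B) (h : A → C) (hgh : ∀ i j, g i = g j ↔ h i = h j) :
    #(univ.image g) = #(univ.image h) := by
  have h1 : (univ.image (fun i => (g i, h i))).image Prod.fst = univ.image g := by
    rw [Finset.image_image]; rfl
  have h2 : (univ.image (fun i => (g i, h i))).image Prod.snd = univ.image h := by
    rw [Finset.image_image]; rfl
  have e1 : #((univ.image (fun i => (g i, h i))).image Prod.fst)
      = #(univ.image (fun i => (g i, h i))) := by
    apply Finset.card_image_of_injOn
    intro x hx y hy hxy
    rw [mem_coe, mem_image] at hx hy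
    obtain ⟨i, _, rfl⟩ := hx
    obtain ⟨j, _, rfl⟩ := hy
    simp only at hxy
    exact Prod.ext hxy ((hgh i j).mp hxy)
  have e2 : #((univ.image (fun i => (g i, h i))).image Prod.snd)
      = #(univ.image (fun i => (g i, h i))) := by
    apply Finset.card_image_of_injOn
    intro x hx y hy hxy
    rw [mem_coe, mem_image] at hx hy
    obtain ⟨i, _, rfl⟩ := hx
    obtain ⟨j, _, rfl⟩ := hy
    simp only at hxy
    exact Prod.ext ((hgh i j).mpr hxy) hxy
  rw [← h1, ← h2, e1, e2]

theorem parts_eq_image (α : Finpartition (univ : Finset (Fin n))) :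
    α.parts = univ.image α.part := by
  ext B
  rw [mem_image]
  constructor
  · intro hB
    obtain ⟨x, hx⟩ := α.nonempty_of_mem_parts hB
    exact ⟨x, mem_univ _, α.part_eq_of_mem hB hx⟩
  · rintro ⟨x, _, rfl⟩
    exact α.part_mem.mpr (mem_univ _)

theorem card_parts_ker {G : Type*} [DecidableEq G] (w : Fin n → G) :
    #(ker w).parts = #(univ.image w) := by
  rw [parts_eq_image]
  exact card_image_kernel _ _ (part_ker_eq w)

theorem fiber_card (α : Finpartition (univ : Finset (Fin n))) (h3 : #α.parts = 3) :
    #(univ.filter fun w : Fin n → ZMod 3 => ker w = α) = 6 := by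
  classical
  have hc : Fintype.card α.parts = Fintype.card (ZMod 3) := by
    rw [Fintype.card_coe, h3, ZMod.card]
  have h6 : Fintype.card (α.parts ≃ ZMod 3) = 6 := by
    rw [Fintype.card_equiv (Fintype.equivOfCardEq hc), Fintype.card_coe, h3]
    rfl
  rw [← h6, ← Finset.card_univ]
  symm
  have hp : ∀ i, α.part i ∈ α.parts := fun i => α.part_mem.mpr (mem_univ _)
  apply Finset.card_bij (fun (e : α.parts ≃ ZMod 3) _ => fun i : Fin n => e ⟨α.part i, hp i⟩)
  · intro e _
    rw [mem_filter]
    refine ⟨mem_univ _, ?_⟩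
    rw [eq_ker_iff]
    intro i j
    rw [e.apply_eq_iff_eq, Subtype.mk.injEq]
  · intro e _ e' _ h
    ext ⟨B, hB⟩
    obtain ⟨x, hx⟩ := α.nonempty_of_mem_parts hB
    have h1 := congrFun h x
    have h2 : (⟨α.part x, hp x⟩ : α.parts) = ⟨B, hB⟩ := Subtype.ext (α.part_eq_of_mem hB hx)
    rw [h2] at h1
    rw [h1]
  · intro w hw
    rw [mem_filter, eq_ker_iff] at hw
    have hw := hw.2
    have hrep : ∀ B : α.parts, ∃ x, x ∈ B.1 := fun B => α.nonempty_of_mem_parts B.2
    choose rep hrep using hrep
    have hinj : Function.Injective (fun B : α.parts => w (rep B)) := by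
      intro B C h
      simp only at h
      rw [← hw, α.part_eq_of_mem B.2 (hrep B), α.part_eq_of_mem C.2 (hrep C)] at h
      exact Subtype.ext h
    have hbij : Function.Bijective (fun B : α.parts => w (rep B)) :=
      (Fintype.bijective_iff_injective_and_card _).mpr ⟨hinj, hc⟩
    refine ⟨Equiv.ofBijective _ hbij, mem_univ _, ?_⟩
    funext i
    rw [Equiv.ofBijective_apply, ← hw]
    exact α.part_eq_of_mem (hp i) (hrep _)

theorem six_T (n m : ℕ) :
    6 * T n m = #(univ.filter fun w : Fin n → ZMod 3 =>
      Function.Surjective w ∧ bw w = m) := by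
  classical
  unfold T
  have hmaps : ∀ w ∈ (univ.filter fun w : Fin n → ZMod 3 => Function.Surjective w ∧ bw w = m),
      ker w ∈ (univ.filter fun α : Finpartition (univ : Finset (Fin n)) =>
        #α.parts = 3 ∧ bnd α = m) := by
    intro w hw
    rw [mem_filter] at hw ⊢
    refine ⟨mem_univ _, ?_, ?_⟩
    · rw [card_parts_ker, Finset.image_univ_of_surjective hw.2.1, card_univ, ZMod.card]
    · rw [bnd_ker, hw.2.2]
  rw [Finset.card_eq_sum_card_fiberwise hmaps]
  rw [Finset.sum_congr rfl (g := fun _ => 6)]
  · rw [Finset.sum_const, smul_eq_mul, mul_comm]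
  · intro α hα
    rw [mem_filter] at hα
    rw [← fiber_card α hα.2.1, Finset.filter_filter]
    congr 1
    ext w
    simp only [mem_filter, mem_univ, true_and]
    constructor
    · rintro ⟨_, h⟩; exact h
    · rintro rfl
      refine ⟨⟨?_, ?_⟩, rfl⟩
      · have h1 := hα.2.1
        rw [card_parts_ker] at h1
        have h2 : univ.image w = univ := by
          rw [← Finset.card_eq_iff_eq_univ, h1, ZMod.card]
        intro y
        have := mem_univ y
        rw [← h2, mem_image] at this
        obtain ⟨x, _, hx⟩ := this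
        exact ⟨x, hx⟩
      · rw [← bnd_ker, hα.2.2]


/-! differences -/

/-- number of nonzero entries -/
def nz {G : Type*} [Zero G] [DecidableEq G] (d : Fin n → G) : ℕ :=
  #(univ.filter fun i => d i ≠ 0)

/-- The number of words of nonzero letters of length `m` with sum `s`. -/
def NG (G : Type*) [AddCommGroup G] [Fintype G] [DecidableEq G] : ℕ → G → ℕ
  | 0, s => if s = 0 then 1 else 0
  | m + 1, s => ∑ x ∈ (univ : Finset G).erase 0, NG G m (s - x)

variable {G : Type*} [AddCommGroup G] [Fintype G] [DecidableEq G]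

/-- partial sums of `d` -/
def psum (d : Fin n → G) (i : ℕ) : G :=
  ∑ j ∈ range i, if h : j < n then d ⟨j, h⟩ else 0

theorem psum_succ (d : Fin n → G) (i : Fin n) : psum d (i + 1) = psum d i + d i := by
  unfold psum
  rw [Finset.sum_range_succ, dif_pos i.isLt]

theorem psum_zero (d : Fin n → G) : psum d 0 = 0 := by
  unfold psum
  simp

theorem psum_all (d : Fin n → G) : psum d n = ∑ i, d i := by
  unfold psum
  rw [← Fin.sum_univ_eq_sum_range (fun j => if h : j < n then d ⟨j, h⟩ else 0) n]
  apply Finset.sum_congr rfl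
  intro i _
  rw [dif_pos i.isLt]

theorem psum_rot (d : Fin n → G) (hd : ∑ i, d i = 0) (i : Fin n) :
    psum d (finRotate n i : Fin n) = psum d i + d i := by
  rw [← psum_succ]
  have hv := rot_val i
  split_ifs at hv with h
  · rw [hv, psum_zero, h, psum_all, hd]
  · rw [hv]

theorem card_bw (hn : 1 ≤ n) (m : ℕ) :
    #(univ.filter fun w : Fin n → G => bw w = m)
      = Fintype.card G * #(univ.filter fun d : Fin n → G => ∑ i, d i = 0 ∧ nz d = m) := by
  classical
  rw [← Finset.card_univ, ← Finset.card_product]
  symm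
  have hdiff : ∀ (c : G) (d : Fin n → G), ∑ i, d i = 0 → ∀ i,
      (c + psum d (finRotate n i : Fin n)) - (c + psum d i) = d i := by
    intro c d hd i
    rw [psum_rot d hd i]
    abel
  apply Finset.card_bij (fun (p : G × (Fin n → G)) _ => fun i : Fin n => p.1 + psum p.2 i)
  · rintro ⟨c, d⟩ h
    rw [mem_product, mem_filter] at h
    rw [mem_filter]
    refine ⟨mem_univ _, ?_⟩
    rw [← h.2.2.2]
    unfold bw nz
    congr 1
    ext i
    simp only [mem_filter, mem_univ, true_and]
    rw [← hdiff c d h.2.2.1 i]
    exact not_congr sub_eq_zero.symm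
  · rintro ⟨c, d⟩ h ⟨c', d'⟩ h' heq
    rw [mem_product, mem_filter] at h h'
    simp only at heq
    have h0 := congrFun heq ⟨0, hn⟩
    simp only [psum_zero, add_zero] at h0
    subst h0
    congr 1
    funext i
    rw [← hdiff c d h.2.2.1 i, ← hdiff c d' h'.2.2.1 i]
    have h1 := congrFun heq i
    have h2 := congrFun heq (finRotate n i)
    exact congrArg₂ (· - ·) h2 h1
  · intro w hw
    rw [mem_filter] at hw
    have hsum : ∑ i, (w (finRotate n i) - w i) = 0 := by
      rw [Finset.sum_sub_distrib, Equiv.sum_comp (finRotate n) w, sub_self]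
    refine ⟨(w ⟨0, hn⟩, fun i => w (finRotate n i) - w i), ?_, ?_⟩
    · rw [mem_product, mem_filter]
      refine ⟨mem_univ _, mem_univ _, hsum, ?_⟩
      rw [← hw.2]
      unfold bw nz
      congr 1
      ext i
      simp only [mem_filter, mem_univ, true_and]
      exact not_congr sub_eq_zero
    · funext i
      simp only
      have key : ∀ k (hk : k < n), w ⟨0, hn⟩ + psum (fun i => w (finRotate n i) - w i) k
          = w ⟨k, hk⟩ := by
        intro k
        induction k with
        | zero => intro hk; rw [psum_zero, add_zero]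
        | succ k ih =>
          intro hk
          have hk' : k < n := by omega
          have h1 := psum_succ (fun i => w (finRotate n i) - w i) ⟨k, hk'⟩
          simp only at h1
          rw [h1, ← add_assoc, ih hk']
          have h2 : finRotate n ⟨k, hk'⟩ = ⟨k + 1, hk⟩ := by
            apply Fin.ext
            rw [rot_val, if_neg (by simp only; omega)]
          rw [h2]
          abel
      exact key i i.isLt

theorem card_cons (P : (Fin (n + 1) → G) → Prop) [DecidablePred P] :
    #(univ.filter P) = ∑ x : G, #(univ.filter fun d : Fin n → G => P (Fin.cons x d)) := by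
  classical
  rw [Finset.card_filter]
  rw [← (Fin.consEquiv (fun _ : Fin (n + 1) => G)).sum_comp]
  rw [Fintype.sum_prod_type]
  apply Finset.sum_congr rfl
  intro x _
  rw [Finset.card_filter]
  rfl

theorem nz_cons (x : G) (d : Fin n → G) :
    nz (Fin.cons x d : Fin (n + 1) → G) = (if x = 0 then 0 else 1) + nz d := by
  unfold nz
  rw [Finset.card_filter, Finset.card_filter, Fin.sum_univ_succ]
  simp only [Fin.cons_zero, Fin.cons_succ]
  congr 1
  by_cases h : x = 0 <;> simp [h]

theorem card_nz : ∀ (n m : ℕ) (s : G),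
    #(univ.filter fun d : Fin n → G => ∑ i, d i = s ∧ nz d = m) = n.choose m * NG G m s := by
  classical
  intro n
  induction n with
  | zero =>
    intro m s
    cases m with
    | zero =>
      by_cases h : s = 0
      · subst h
        simp [NG, nz]
      · simp [NG, nz, h, Ne.symm h]
    | succ m =>
      simp [nz]
  | succ n ih =>
    intro m s
    rw [card_cons]
    rw [← Finset.add_sum_erase _ _ (mem_univ (0 : G))]
    have h0 : #(univ.filter fun d : Fin n → G =>
        ∑ i, (Fin.cons 0 d : Fin (n + 1) → G) i = s ∧ nz (Fin.cons 0 d : Fin (n + 1) → G) = m)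
        = n.choose m * NG G m s := by
      rw [← ih m s]
      congr 1
      ext d
      simp only [mem_filter, mem_univ, true_and, Fin.sum_univ_succ, Fin.cons_zero, Fin.cons_succ,
        zero_add, nz_cons, if_true]
    rw [h0]
    cases m with
    | zero =>
      have h1 : ∀ x ∈ (univ : Finset G).erase 0, #(univ.filter fun d : Fin n → G =>
          ∑ i, (Fin.cons x d : Fin (n + 1) → G) i = s ∧
            nz (Fin.cons x d : Fin (n + 1) → G) = 0) = 0 := by
        intro x hx
        rw [mem_erase] at hx
        rw [card_eq_zero, Finset.filter_eq_empty_iff]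
        intro d _
        rw [nz_cons, if_neg hx.1]
        omega
      rw [Finset.sum_congr rfl h1]
      simp
    | succ m =>
      have h1 : ∀ x ∈ (univ : Finset G).erase 0, #(univ.filter fun d : Fin n → G =>
          ∑ i, (Fin.cons x d : Fin (n + 1) → G) i = s ∧
            nz (Fin.cons x d : Fin (n + 1) → G) = m + 1) = n.choose m * NG G m (s - x) := by
        intro x hx
        rw [mem_erase] at hx
        rw [← ih m (s - x)]
        congr 1
        ext d
        simp only [mem_filter, mem_univ, true_and, Fin.sum_univ_succ, Fin.cons_zero,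
          Fin.cons_succ, nz_cons, if_neg hx.1]
        constructor
        · rintro ⟨ha, hb⟩
          exact ⟨by rw [← ha]; abel, by omega⟩
        · rintro ⟨ha, hb⟩
          exact ⟨by rw [ha]; abel, by omega⟩
      rw [Finset.sum_congr rfl h1, ← Finset.mul_sum]
      show _ = (n + 1).choose (m + 1) * ∑ x ∈ (univ : Finset G).erase 0, NG G m (s - x)
      have h2 : NG G (m + 1) s = ∑ x ∈ (univ : Finset G).erase 0, NG G m (s - x) := rfl
      rw [h2, Nat.choose_succ_succ]
      ring

theorem NG3 (m : ℕ) : (3 * (NG (ZMod 3) m 0 : ℤ) = 2 ^ m + 2 * (-1) ^ m) ∧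
    (3 * (NG (ZMod 3) m 1 : ℤ) = 2 ^ m - (-1) ^ m) ∧
    (3 * (NG (ZMod 3) m 2 : ℤ) = 2 ^ m - (-1) ^ m) := by
  induction m with
  | zero => decide
  | succ m ih =>
    obtain ⟨h0, h1, h2⟩ := ih
    have he : (univ : Finset (ZMod 3)).erase 0 = {1, 2} := by decide
    have r : ∀ s, NG (ZMod 3) (m + 1) s = NG (ZMod 3) m (s - 1) + NG (ZMod 3) m (s - 2) := by
      intro s
      show ∑ x ∈ (univ : Finset (ZMod 3)).erase 0, NG (ZMod 3) m (s - x) = _
      rw [he, Finset.sum_pair (by decide)]
    refine ⟨?_, ?_, ?_⟩
    · rw [r, show (0 : ZMod 3) - 1 = 2 from by decide, show (0 : ZMod 3) - 2 = 1 from by decide]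
      push_cast
      rw [pow_succ, pow_succ]
      linarith
    · rw [r, show (1 : ZMod 3) - 1 = 0 from by decide, show (1 : ZMod 3) - 2 = 2 from by decide]
      push_cast
      rw [pow_succ, pow_succ]
      linarith
    · rw [r, show (2 : ZMod 3) - 1 = 1 from by decide, show (2 : ZMod 3) - 2 = 0 from by decide]
      push_cast
      rw [pow_succ, pow_succ]
      linarith

theorem NG2 (m : ℕ) : NG (ZMod 2) m 0 = (if Even m then 1 else 0) ∧
    NG (ZMod 2) m 1 = (if Even m then 0 else 1) := by
  induction m with
  | zero => decide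
  | succ m ih =>
    obtain ⟨h0, h1⟩ := ih
    have he : (univ : Finset (ZMod 2)).erase 0 = {1} := by decide
    have r : ∀ s, NG (ZMod 2) (m + 1) s = NG (ZMod 2) m (s - 1) := by
      intro s
      show ∑ x ∈ (univ : Finset (ZMod 2)).erase 0, NG (ZMod 2) m (s - x) = _
      rw [he, Finset.sum_singleton]
    rw [r, r, show (0 : ZMod 2) - 1 = 1 from by decide, show (1 : ZMod 2) - 1 = 0 from by decide,
      h0, h1]
    by_cases h : Even m
    · have h' : ¬ Even (m + 1) := by rw [Nat.even_add_one]; exact not_not.mpr h
      rw [if_pos h, if_pos h, if_neg h', if_neg h']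
      exact ⟨rfl, rfl⟩
    · have h' : Even (m + 1) := by rw [Nat.even_add_one]; exact h
      rw [if_neg h, if_neg h, if_pos h', if_pos h']
      exact ⟨rfl, rfl⟩

/-- the embedding of two letters omitting the letter `c` -/
def emb (c : ZMod 3) (x : ZMod 2) : ZMod 3 := if x = 0 then c + 1 else c + 2

theorem emb_inj (c : ZMod 3) : Function.Injective (emb c) := by
  revert c
  unfold Function.Injective
  decide

theorem emb_ne (c : ZMod 3) (x : ZMod 2) : emb c x ≠ c := by
  revert c x
  decide

theorem emb_surj (c y : ZMod 3) (h : y ≠ c) : ∃ x, emb c x = y := by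
  revert c y
  decide

theorem card_omit (n m : ℕ) (c : ZMod 3) :
    #(univ.filter fun w : Fin n → ZMod 3 => (∀ i, w i ≠ c) ∧ bw w = m)
      = #(univ.filter fun v : Fin n → ZMod 2 => bw v = m) := by
  classical
  symm
  have hb : ∀ v : Fin n → ZMod 2, bw (fun i => emb c (v i)) = bw v := by
    intro v
    unfold bw
    congr 1
    ext i
    simp only [mem_filter, mem_univ, true_and]
    exact not_congr (emb_inj c).eq_iff
  apply Finset.card_bij (fun (v : Fin n → ZMod 2) _ => fun i => emb c (v i))
  · intro v hv
    rw [mem_filter] at hv ⊢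
    exact ⟨mem_univ _, fun i => emb_ne c _, by rw [hb, hv.2]⟩
  · intro v _ v' _ h
    funext i
    exact emb_inj c (congrFun h i)
  · intro w hw
    rw [mem_filter] at hw
    choose v hv using fun i => emb_surj c (w i) (hw.2.1 i)
    refine ⟨v, ?_, funext hv⟩
    rw [mem_filter]
    refine ⟨mem_univ _, ?_⟩
    rw [← hb, ← hw.2.2]
    congr 1
    exact funext hv

theorem const_bw {K : Type*} [DecidableEq K] (w : Fin n → K) (a : K) (h : ∀ i, w i = a) :
    bw w = 0 := by
  unfold bw
  rw [card_eq_zero, Finset.filter_eq_empty_iff]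
  intro i _
  rw [h, h]
  simp

theorem third (a b c : ZMod 3) (hab : a ≠ b) (ha : c ≠ a) (hb : c ≠ b) :
    c = - a - b := by
  revert a b c
  decide

theorem card_split (n m : ℕ) (hm : 1 ≤ m) :
    #(univ.filter fun w : Fin n → ZMod 3 => bw w = m) =
      #(univ.filter fun w : Fin n → ZMod 3 => Function.Surjective w ∧ bw w = m)
        + 3 * #(univ.filter fun v : Fin n → ZMod 2 => bw v = m) := by
  classical
  have h1 : 3 * #(univ.filter fun v : Fin n → ZMod 2 => bw v = m)
      = #((univ : Finset (ZMod 3)).biUnion fun c =>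
        univ.filter fun w : Fin n → ZMod 3 => (∀ i, w i ≠ c) ∧ bw w = m) := by
    rw [Finset.card_biUnion]
    · rw [Finset.sum_congr rfl (fun c _ => card_omit n m c), Finset.sum_const, card_univ,
        ZMod.card, smul_eq_mul]
    · intro a _ b _ hab
      rw [Function.onFun, Finset.disjoint_left]
      intro w hwa hwb
      rw [mem_filter] at hwa hwb
      have h := const_bw w (- a - b) (fun i => third a b (w i) hab (hwa.2.1 i) (hwb.2.1 i))
      omega
  rw [h1, ← card_union_of_disjoint]
  · congr 1
    ext w
    simp only [mem_filter, mem_univ, true_and, mem_union, mem_biUnion]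
    constructor
    · intro hw
      by_cases hs : Function.Surjective w
      · exact Or.inl ⟨hs, hw⟩
      · right
        unfold Function.Surjective at hs
        push Not at hs
        obtain ⟨c, hc⟩ := hs
        exact ⟨c, hc, hw⟩
    · rintro (⟨_, h⟩ | ⟨_, _, h⟩) <;> exact h
  · rw [Finset.disjoint_left]
    intro w hw hw'
    rw [mem_filter] at hw
    rw [mem_biUnion] at hw'
    obtain ⟨c, _, hc⟩ := hw'
    rw [mem_filter] at hc
    obtain ⟨i, hi⟩ := hw.2.1 c
    exact hc.2.1 i hi

theorem six_T_eq (n m : ℕ) (hn : 1 ≤ n) (hm : 1 ≤ m) :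
    6 * (T n m : ℤ) = n.choose m * (2 ^ m + 2 * (-1) ^ m - 6 * (if Even m then 1 else 0)) := by
  have h1 := six_T n m
  have h2 := card_split n m hm
  rw [card_bw hn m, card_bw hn m, card_nz, card_nz, ← h1, ZMod.card, ZMod.card, (NG2 m).1] at h2
  have h3 : (3 * ((n.choose m : ℤ) * NG (ZMod 3) m 0))
      = 6 * (T n m : ℤ) + 3 * (2 * (n.choose m * (if Even m then 1 else 0))) := by
    exact_mod_cast h2
  have h4 := (NG3 m).1
  have h5 : (3 * ((n.choose m : ℤ) * NG (ZMod 3) m 0))
      = n.choose m * (2 ^ m + 2 * (-1) ^ m) := by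
    rw [← h4]; ring
  rw [h5] at h3
  linarith

end count

theorem three_T_odd (n g : ℕ) (hn : 1 ≤ n) :
    3 * (T n (2 * g + 3) : ℤ) = n.choose (2 * g + 3) * (4 ^ (g + 1) - 1) := by
  have h := six_T_eq n (2 * g + 3) hn (by omega)
  have hodd : Odd (2 * g + 3) := ⟨g + 1, by ring⟩
  rw [if_neg (Nat.not_even_iff_odd.mpr hodd), hodd.neg_one_pow] at h
  have h4 : (4 : ℤ) ^ (g + 1) * 2 = 2 ^ (2 * g + 3) := by
    rw [show (4 : ℤ) = 2 ^ 2 by norm_num, ← pow_mul]
    ring
  rw [← h4] at h
  linarith

theorem three_T_even (n g : ℕ) (hn : 1 ≤ n) :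
    3 * (T n (2 * g + 4) : ℤ) = n.choose (2 * g + 4) * (2 * (4 ^ (g + 1) - 1)) := by
  have h := six_T_eq n (2 * g + 4) hn (by omega)
  have heven : Even (2 * g + 4) := ⟨g + 2, by ring⟩
  rw [if_pos heven, heven.neg_one_pow] at h
  have h4 : (4 : ℤ) ^ (g + 1) * 4 = 2 ^ (2 * g + 4) := by
    rw [show (4 : ℤ) = 2 ^ 2 by norm_num, ← pow_mul]
    ring
  rw [← h4] at h
  linarith

/-- The number of genus `g` partitions of `[n]` into three blocks. -/
theorem result (n g : ℕ) (hn : 1 ≤ n) :
    (S n 3 g : ℚ) =
      ((4 : ℚ) ^ (g + 1) - 1) * ((n : ℚ) - g - 1) / (3 * ((g : ℚ) + 2)) *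
        (n.choose (2 * g + 3) : ℚ) := by
  have h1 := three_T_odd n g hn
  have h2 := three_T_even n g hn
  have h3 := Nat.choose_succ_right_eq n (2 * g + 3)
  have h1' : 3 * (T n (2 * g + 3) : ℚ) = n.choose (2 * g + 3) * (4 ^ (g + 1) - 1) := by
    exact_mod_cast h1
  have h2' : 3 * (T n (2 * g + 4) : ℚ) = n.choose (2 * g + 4) * (2 * (4 ^ (g + 1) - 1)) := by
    exact_mod_cast h2
  have h3' : (n.choose (2 * g + 4) : ℚ) * (2 * g + 4)
      = n.choose (2 * g + 3) * ((n : ℚ) - (2 * g + 3)) := by
    rcases Nat.lt_or_ge n (2 * g + 3) with hlt | hge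
    · rw [Nat.choose_eq_zero_of_lt hlt, Nat.choose_eq_zero_of_lt (by omega)]
      simp
    · have h4 : ((n - (2 * g + 3) : ℕ) : ℚ) = (n : ℚ) - (2 * g + 3) := by
        rw [Nat.cast_sub hge]; push_cast; ring
      rw [← h4]
      exact_mod_cast h3
  have hg : (0 : ℚ) < 3 * ((g : ℚ) + 2) := by positivity
  rw [S_eq]
  push_cast
  rw [div_mul_eq_mul_div, eq_div_iff hg.ne']
  have h5 : ((T n (2 * g + 3) : ℚ) + T n (2 * g + 4)) * (3 * ((g : ℚ) + 2))
      = (3 * (T n (2 * g + 3) : ℚ)) * (g + 2) + (3 * (T n (2 * g + 4) : ℚ)) * (g + 2) := by ring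
  rw [h5, h1', h2']
  linear_combination (4 ^ (g + 1) - 1) * h3'

end Pool.Agent.Results.MP_752880_co.ThreeBlocks
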